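import Pool.Agent.W5h90.Fuj.Reg

/-!
# Fujita's freeness conjecture for weighted complete intersections with chain degrees

Let `X = V(f_1, ..., f_c)` be a complete intersection of dimension `n` and degrees `d_1, ..., d_c`
in the weighted projective space `P(a_0, ..., a_{n+c})`, with arbitrary weights, on which `O(1)` is
invertible (`hgcd`: the torus acts freely on the punctured cone over `X`). Let `L` be the least
common multiple of the weights and suppose that

* the numbers `gcd(d_j, L)` form a chain for divisibility (`Chain`), for example all degrees are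
  equal, or form a chain, or all `d_j` are multiples of all weights, so that `X` is a complete
  intersection of Cartier divisors of `P`; or
* every `g ≥ 2` dividing `L` has a prime power factor `q` such that at least as many degrees are
  divisible by `g` as weights by `q` (`Enough`), for example at least `r` of the degrees are
  multiples of all weights, where `r` is the largest number of weights with a common prime factor.

Then `K_X = O(∑ d_j - ∑ a_i)`, and for `A = O(k)`, `k ≥ 1`, and `m ≥ n + 1` the bundle
`K_X + m A = O(e)` is globally generated.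

For example the general `X_{30,30}` in `P(6, 10, 15, 1, ..., 1)` is of this kind, and there
`K_X + n A = O(29)` has base points for `A = O(1)`.

The proof. For `g ≥ 2` at least as many degrees as weights are divisible by `g`, as `O(1)` is
invertible. Let `S` be the set of nonzero coordinates of a point of `X`, so that the weights in `S`
have gcd `1`. By a theorem of Brauer, all `e ≥ ∑ lcm(a_i, g_i) - ∑ a_i + 1` are combinations of the
weights in `S`, where the sums run over `S`, where `g_i` is the gcd of the weights after `a_i` for
an order on `S`, and the last summand of the first sum is omitted. Write all the numbers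
`lcm(a_i, g_i)`, the other weights and the degrees as sums of values `φ(g)` over their divisors.
For a prime power `q` as many `lcm(a_i, g_i)` as weights in `S` are divisible by `q`, and for any
`g ≥ 2` dividing `L` there is a prime power `q` which divides `g` such that at most as many
weights are divisible by `q` as degrees by `g`. So the bound is at most `∑ d_j - ∑ a_i + n + 1`.
-/

set_option autoImplicit false

namespace Pool.Agent.Results.MP_9ff3e7_ag.ChainDegrees

open MvPolynomial

/-- The greatest common divisors of the degrees `d j` with the least common multiple `L` of the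
weights `a i` form a chain for divisibility. -/
def Chain {N c : ℕ} (a : Fin N → ℕ) (d : Fin c → ℕ) : Prop :=
  ∀ j j', Nat.gcd (d j) (Finset.univ.lcm a) ∣ Nat.gcd (d j') (Finset.univ.lcm a) ∨
    Nat.gcd (d j') (Finset.univ.lcm a) ∣ Nat.gcd (d j) (Finset.univ.lcm a)

/-- Every `g ≥ 2` dividing the least common multiple of the weights has a prime power factor
`q = p ^ t ≥ 2` such that at most as many weights are divisible by `q` as degrees by `g`. -/
def Enough {N c : ℕ} (a : Fin N → ℕ) (d : Fin c → ℕ) : Prop :=
  ∀ g, 2 ≤ g → g ∣ Finset.univ.lcm a → ∃ p t : ℕ, p.Prime ∧ 1 ≤ t ∧ p ^ t ∣ g ∧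
    (Finset.univ.filter fun i => p ^ t ∣ a i).card ≤ (Finset.univ.filter fun j => g ∣ d j).card

/-- `K_X + m A` is globally generated for `A = O(k)`, `k ≥ 1`, `m ≥ n + 1`, if `X` is a weighted
complete intersection of dimension `n`, with arbitrary weights, on which `O(1)` is invertible, and
whose degrees satisfy `Chain` or `Enough`. -/
theorem result (n c : ℕ) (a : Fin (n + c + 1) → ℕ) (ha : ∀ i, 0 < a i)
    (d : Fin c → ℕ) (hd : ∀ j, 0 < d j) (had : Chain a d ∨ Enough a d)
    (f : Fin c → MvPolynomial (Fin (n + c + 1)) ℂ) (hf : ∀ j, IsWeightedHomogeneous a (f j) (d j))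
    (hgcd : ∀ v : Fin (n + c + 1) → ℂ, v ≠ 0 → (∀ j, eval v (f j) = 0) →
      ∀ g : ℕ, (∀ i, v i ≠ 0 → g ∣ a i) → g = 1)
    (k m e : ℕ) (hk : 1 ≤ k) (hm : n + 1 ≤ m) (he : e + ∑ i, a i = ∑ j, d j + m * k) :
    ∀ v : Fin (n + c + 1) → ℂ, v ≠ 0 → (∀ j, eval v (f j) = 0) →
      ∃ s : MvPolynomial (Fin (n + c + 1)) ℂ, IsWeightedHomogeneous a s e ∧ eval v s ≠ 0 := by
  classical
  intro v hv hfv
  have hN : Enough a d := by
    rcases had with hchain | hN
    · intro g hg hgL
      obtain ⟨p, t, hp, ht, hpg, hpd⟩ := Pool.Agent.W5h90.Fuj.exists_prime_pow d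
        (Pool.Agent.W5h90.Fuj.lcm_pos' a ha) hchain hg hgL
      refine ⟨p, t, hp, ht, hpg, ?_⟩
      have h1 : 2 ≤ p ^ t := by
        have := hp.two_le
        have h3 : p ^ 1 ≤ p ^ t := Nat.pow_le_pow_right hp.pos ht
        rw [pow_one] at h3
        omega
      refine (Pool.Agent.W5h90.Fuj.card_le a d hd f hf hgcd (p ^ t) h1).trans ?_
      refine Finset.card_le_card fun j hj => ?_
      rw [Finset.mem_filter] at hj ⊢
      exact ⟨hj.1, hpd j hj.2⟩
    · exact hN
  have h3 : n + 1 ≤ m * k := hm.trans (Nat.le_mul_of_pos_right _ hk)
  obtain ⟨w, hw1, hw2⟩ := Pool.Agent.W5h90.Fuj.exists_weight n (by simp) a ha d hd hN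
    (Finset.univ.filter fun i => v i ≠ 0) (by
      by_contra hcon
      rw [Finset.not_nonempty_iff_eq_empty] at hcon
      apply hv
      funext i
      by_contra hi
      have h1 : i ∈ (Finset.univ.filter fun i => v i ≠ 0) := by simpa using hi
      rw [hcon] at h1
      exact absurd h1 (Finset.notMem_empty i)) (by
      intro g hg
      exact hgcd v hv hfv g fun i hi => hg i (by simpa using hi)) e (by omega)
  refine ⟨monomial w 1, ?_, ?_⟩
  · exact isWeightedHomogeneous_monomial a w 1 hw2
  · rw [eval_monomial, one_mul, Finsupp.prod]
    rw [Finset.prod_ne_zero_iff]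
    intro i hi
    have h1 := hw1 i (Finsupp.mem_support_iff.1 hi)
    rw [Finset.mem_filter] at h1
    exact pow_ne_zero _ h1.2

end Pool.Agent.Results.MP_9ff3e7_ag.ChainDegrees
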