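import Pool.Agent.W5h76.Fuj2.Geo

/-!
# Fujita's freeness conjecture for weighted complete intersections of codimension two

Let `X = V(f_1, f_2)` be a complete intersection of dimension `n` and degrees `d_1, d_2` in the
weighted projective space `P(a_0, ..., a_{n+2})`, with arbitrary weights and degrees, on which
`O(1)` is invertible (the torus acts freely on the punctured cone over `X`). Then
`K_X = O(d_1 + d_2 - ∑ a_i)`, and for `A = O(k)`, `k ≥ 1`, and `m ≥ n + 1` the bundle `K_X + m A` is
globally generated. (If `X` is smooth of dimension at least three these are all ample `A`.)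

More generally `X = V(f_1, ..., f_c)` may have any codimension, if `O(1)` is invertible on the common
zero locus of two of the equations, `f_{j₀}` and `f_{j₁}`.

The proof. For `g ≥ 2` at least as many of the two degrees as weights are divisible by `g`
(`Pool.Agent.W5h90.Fuj.card_le`). So no `g ≥ 2` divides three weights, and if it divides two weights
it divides both degrees. Let `S` be the set of nonzero coordinates of a point of `X`, so that the
weights in `S` have gcd `1`.

* If two coprime weights `a_i`, `a_j` with `i, j ∈ S` divide the same degree, then for all `g ≥ 2`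
  at least as many degrees are divisible by `g` as numbers among `a_i a_j` and the other weights. So
  `∑ (d_j - 1) ≥ (a_i a_j - 1) + ∑_{l ≠ i, j} (a_l - 1)`, and all integers from
  `∑ (d_j - 1) - ∑ (a_l - 1) ≥ (a_i - 1) (a_j - 1)` on are combinations of `a_i` and `a_j`.
* If `a_i`, `a_j` divide the same degree and have a common factor, take any third `k ∈ S`. The same
  comparison with the numbers `lcm(a_i, a_j)`, `gcd(a_i, a_j) a_k` and the other weights, and the
  theorem of Brauer on the combinations of three numbers, give the result.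
* Otherwise `S = {i, j}`, `a_i` divides only `d_1` and `a_j` only `d_2`. Then a pure power of `x_i`
  appears in `f_1`, which vanishes at the point, so that `d_1 ≥ a_i a_j`; in the same way
  `d_2 ≥ a_i a_j`. Let `q` be a prime power which divides `a_i` but not `d_2`. Then `q` divides no
  other weight, so that the other weights only see the divisors of `d_1` which are not multiples of
  `q`, and these are the divisors of a number `≤ d_1 / 2`. The same holds for `d_2`, so
  `∑_{l ≠ i, j} (a_l - 1) ≤ d_1 / 2 + d_2 / 2 - 2 ≤ ∑ (d_j - 1) - a_i a_j`.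
-/

set_option autoImplicit false

namespace Pool.Agent.Results.MP_9ff3e7_ag.CodimensionTwo

open MvPolynomial

/-- `K_X + m A` is globally generated for `A = O(k)`, `k ≥ 1`, `m ≥ n + 1`, if `X` is a weighted
complete intersection of dimension `n` in `P(a_0, ..., a_{n+c})`, with arbitrary weights and degrees,
two of whose equations define a `W` on which `O(1)` is invertible. In particular for all weighted
complete intersections of codimension two on which `O(1)` is invertible. -/
theorem result (n c : ℕ) (a : Fin (n + c + 1) → ℕ) (ha : ∀ i, 0 < a i)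
    (d : Fin c → ℕ) (hd : ∀ j, 0 < d j)
    (f : Fin c → MvPolynomial (Fin (n + c + 1)) ℂ) (hf : ∀ j, IsWeightedHomogeneous a (f j) (d j))
    (j₀ j₁ : Fin c) (hj : j₀ ≠ j₁)
    (hgcd : ∀ v : Fin (n + c + 1) → ℂ, v ≠ 0 → eval v (f j₀) = 0 → eval v (f j₁) = 0 →
      ∀ g : ℕ, (∀ i, v i ≠ 0 → g ∣ a i) → g = 1)
    (k m : ℕ) (hk : 1 ≤ k) (hm : n + 1 ≤ m) :
    ∑ i, a i ≤ ∑ j, d j + m * k ∧
    ∀ v : Fin (n + c + 1) → ℂ, v ≠ 0 → (∀ j, eval v (f j) = 0) →
      ∃ s : MvPolynomial (Fin (n + c + 1)) ℂ,
        IsWeightedHomogeneous a s (∑ j, d j + m * k - ∑ i, a i) ∧ eval v s ≠ 0 := by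
  classical
  have hc : 2 ≤ c := by
    have h1 : ({j₀, j₁} : Finset (Fin c)).card ≤ Fintype.card (Fin c) := Finset.card_le_univ _
    rw [Finset.card_pair hj, Fintype.card_fin] at h1
    exact h1
  set d' : Fin 2 → ℕ := ![d j₀, d j₁] with hd'
  set f' : Fin 2 → MvPolynomial (Fin (n + c + 1)) ℂ := ![f j₀, f j₁] with hf'
  have hd2 : ∀ j, 0 < d' j := by
    intro j; fin_cases j
    · exact hd j₀
    · exact hd j₁
  have hf2 : ∀ j, IsWeightedHomogeneous a (f' j) (d' j) := by
    intro j; fin_cases j
    · exact hf j₀
    · exact hf j₁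
  have hgcd' : ∀ v : Fin (n + c + 1) → ℂ, v ≠ 0 → (∀ j, eval v (f' j) = 0) →
      ∀ g : ℕ, (∀ i, v i ≠ 0 → g ∣ a i) → g = 1 :=
    fun v hv hv' => hgcd v hv (hv' 0) (hv' 1)
  obtain ⟨n', hn'⟩ : ∃ n', n' + 2 = n + c := ⟨n + c - 2, by omega⟩
  have hcard : Fintype.card (Fin (n + c + 1)) = n' + 3 := by
    rw [Fintype.card_fin]
    omega
  have h3 : n + 1 ≤ m * k := hm.trans (Nat.le_mul_of_pos_right _ hk)
  have hsum : d j₀ + d j₁ + (c - 2) ≤ ∑ j, d j := by
    have h4 : ∑ j ∈ ({j₀, j₁} : Finset (Fin c)), d j + ∑ j ∈ ({j₀, j₁} : Finset (Fin c))ᶜ, d j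
        = ∑ j, d j := Finset.sum_add_sum_compl _ d
    rw [Finset.sum_pair hj] at h4
    have h5 : (({j₀, j₁} : Finset (Fin c))ᶜ).card ≤ ∑ j ∈ ({j₀, j₁} : Finset (Fin c))ᶜ, d j := by
      rw [Finset.card_eq_sum_ones]
      exact Finset.sum_le_sum fun j _ => hd j
    rw [Finset.card_compl, Finset.card_pair hj, Fintype.card_fin] at h5
    omega
  have hE : ∑ j, d' j + n' + 1 ≤ ∑ j, d j + m * k := by
    rw [Fin.sum_univ_two]
    show d j₀ + d j₁ + n' + 1 ≤ _
    omega
  -- the degree is not negative
  have hpos : ∑ i, a i ≤ ∑ j, d j + m * k := by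
    have hR : Pool.Agent.W5h76.Fuj2.Reg2 a d' :=
      fun g hg => Pool.Agent.W5h90.Fuj.card_le a d' hd2 f' hf2 hgcd' g hg
    have key : (Finset.univ.toList.map a).sum ≤ (Finset.univ.toList.map d').sum + (n' + 1) := by
      refine Pool.Agent.W5h90.Fuj.sum_le_of_count ?_ ?_ ?_ ?_
      · intro x hx
        obtain ⟨i, _, rfl⟩ := List.mem_map.1 hx
        exact ha i
      · intro x hx
        obtain ⟨i, _, rfl⟩ := List.mem_map.1 hx
        exact hd2 i
      · rw [List.length_map, List.length_map, Finset.length_toList, Finset.length_toList,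
          Finset.card_univ, Finset.card_univ, hcard, Fintype.card_fin]
        omega
      · intro g hg
        have h4 : (Finset.univ.toList.map a).countP (fun x => g ∣ x)
            = Finset.univ.toList.countP fun i => g ∣ a i := by
          rw [List.countP_map]
          rfl
        have h5 : (Finset.univ.toList.map d').countP (fun x => g ∣ x)
            = Finset.univ.toList.countP fun j => g ∣ d' j := by
          rw [List.countP_map]
          rfl
        rw [h4, h5, Pool.Agent.W5h90.Fuj.countP_toList, Pool.Agent.W5h90.Fuj.countP_toList]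
        exact hR g hg
    rw [Finset.sum_map_toList, Finset.sum_map_toList] at key
    have key' : ∑ i, a i ≤ ∑ j, d' j + (n' + 1) := key
    omega
  refine ⟨hpos, fun v hv hfv => ?_⟩
  refine Pool.Agent.W5h76.Fuj2.two_equations n' hcard a ha d' hd2 f' hf2 hgcd' _ ?_ v hv ?_
  · rw [Nat.sub_add_cancel hpos]
    exact hE
  · intro j; fin_cases j
    · exact hfv j₀
    · exact hfv j₁

end Pool.Agent.Results.MP_9ff3e7_ag.CodimensionTwo
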