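import Pool.Agent.W5h63.FJ.Comm

/-!
# Fujita's freeness conjecture for étale quotients by finite groups

`Y ⊂ P^N` is given by a homogeneous ideal `I`, with `ω_Y = O(κ)` and `dim Y = n`, and is a complete
intersection or arithmetically Cohen-Macaulay. A finite group `G` acts linearly on `ℂ^(N+1)`, such
that `G` modulo the elements which act by scalars acts on `Y`, freely. For `X = Y/G` and a line
bundle `A` on `X` whose pullback to `Y` is `O(k)`, `k ≥ 1`, the sections of `K_X + m A` are the forms
of degree `e = κ + m k` on the cone over `Y` on which `G` acts by a given character `χ`. Let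
`m ≥ n + 1`. We show that `K_X + m A` is globally generated

* if `Y` is a hypersurface, `G` is any group, abelian or not, and `n + 2` is not a prime number
  dividing the degree of `Y`;
* if `G` modulo scalars has at most `2 e + 1` elements; more generally
* if for every subgroup `H` and every point `y` of `Y` for which `Hy` spans a projective space `P_H` of
  dimension `r ≥ 2`, this orbit has at most `1 + e r` points, or `P_H` meets `Y` in finitely
  many points, or `H` acts on the span of `Hy` by commuting matrices.

The last case contains all commuting groups, for example the diagonal groups of any order.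

The proof. The function `|A| - e dim⟨A y⟩` of the subsets `A` of `G` modulo scalars is maximal on a
subgroup `H`, by submodularity. By Edmonds' partition theorem every form of degree `e` on the span of
`H y` extends to a form which vanishes at the rest of `G y`. So one has to find a form on the span of
`H y` whose average over `H` does not vanish at `y`.

* If `H y` spans a line, this line is not contained in `Y`, as an element of `H` has a fixed point on
  it, and so `|H| ≤ e + 1`. Then, and if `|H| ≤ 1 + e r`, products of linear forms separate `y`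
  from the rest of the orbit.
* If the span of `H y` meets `Y` in finitely many points then these are separated by the forms of
  degree `≥ κ + n + 1`, by Macaulay's theorem.
* If `H` acts on the span `W` by commuting matrices, take a basis of `W` of joint eigenvectors, and
  a point `w` of `Y` in `W` of minimal support inside the support of `y`. The coordinate subspace of
  `w` meets `Y` in finitely many points, so that the orbit of `w` is separated by forms of degree
  `e`, and a monomial of degree `e` and character `χ` does not vanish at `w`, nor at `y`.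

For a hypersurface of degree `d` the order of `G` modulo scalars divides `d`. For let `P` be a subgroup
of order `p^k`, and let `h` be central in `P`, of order `p`. The eigenspaces of `h` are lines, as a plane
of eigenvectors would meet the cone over `Y`, so `h` has `n + 2 ≤ p` different eigenvalues. If
`q ∈ P` commutes with `h` only up to a scalar `ζ ≠ 1`, then the eigenvalues are permuted by
`ζ`, so that `n + 2 = p`, and `ζ^d = 1`, so that `p` divides `d`, which was excluded. So `P` acts on
two of the eigenlines of `h` by characters, whose quotient is injective and has values in the `d`-th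
roots of unity.
-/

set_option autoImplicit false

namespace Pool.Agent.Results.MP_9ff3e7_ag.FiniteQuotients

open MvPolynomial Module

/-- A homogeneous ideal `I` in `ℂ[x_0, …, x_N]` and a linear action `ρ` of `G` on `ℂ^(N+1)` which
preserves the zeros of `I`. An element which fixes a line in the zeros acts by a scalar. -/
structure Cover (G : Type) [Group G] (N : ℕ) where
  I : Ideal (MvPolynomial (Fin (N + 1)) ℂ)
  homogeneous : ∀ p ∈ I, ∀ n, homogeneousComponent n p ∈ I
  ρ : Representation ℂ G (Fin (N + 1) → ℂ)
  stable : ∀ g v, (∀ p ∈ I, eval v p = 0) → ∀ p ∈ I, eval (ρ g v) p = 0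
  free : ∀ v, v ≠ 0 → (∀ p ∈ I, eval v p = 0) → ∀ (g : G) (μ : ℂ), ρ g v = μ • v →
    ∃ ν : ℂ, ∀ x, ρ g x = ν • x

/-- the linear form with coefficients `a` -/
noncomputable def linForm {N : ℕ} (a : Fin (N + 1) → ℂ) : MvPolynomial (Fin (N + 1)) ℂ :=
  ∑ i, C (a i) * X i

/-- `I` is generated by `c = N - n` forms of degrees `d j ≥ 1`, and `κ = ∑ d j - (N + 1)`. -/
def CompleteIntersection {N : ℕ} (I : Ideal (MvPolynomial (Fin (N + 1)) ℂ)) (n : ℕ) (κ : ℤ) :
    Prop :=
  ∃ (c : ℕ) (f : Fin c → MvPolynomial (Fin (N + 1)) ℂ) (d : Fin c → ℕ),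
    (∀ j, (f j).IsHomogeneous (d j) ∧ 0 < d j) ∧ I = Ideal.span (Set.range f) ∧
    N = n + c ∧ κ = ∑ j, (d j : ℤ) - (N + 1)

/-- There are `n + 1` linear forms which are a regular sequence modulo `I`, and modulo `I` and these
linear forms there are no nonzero forms of degree `> κ + n + 1`. For the ideal of an arithmetically
Cohen-Macaulay variety of dimension `n` this says that the `a`-invariant is at most `κ`. -/
def CohenMacaulay {N : ℕ} (I : Ideal (MvPolynomial (Fin (N + 1)) ℂ)) (n : ℕ) (κ : ℤ) : Prop :=
  ∃ a : Fin (n + 1) → Fin (N + 1) → ℂ,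
    (∀ i p, linForm (a i) * p ∈ I ⊔ Ideal.span ((fun j => linForm (a j)) '' {j | j < i}) →
      p ∈ I ⊔ Ideal.span ((fun j => linForm (a j)) '' {j | j < i})) ∧
    ∀ t : ℕ, κ + n + 1 < t → ∀ p : MvPolynomial (Fin (N + 1)) ℂ, p.IsHomogeneous t →
      p ∈ I ⊔ Ideal.span (Set.range fun j => linForm (a j))

variable {G : Type} [Group G] {N : ℕ}

/-- The elements of `G` which act by scalars (they form a subgroup). -/
def scalars (D : Cover G N) : Subgroup G :=
  Subgroup.closure {g | ∃ ν : ℂ, ∀ x, D.ρ g x = ν • x}

/-- `I` is generated by one semi-invariant form of degree `d ≥ 1`, `κ = d - (N + 1)` and `N + 1` is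
not a prime number dividing `d`. -/
def Hypersurface (D : Cover G N) (n : ℕ) (κ : ℤ) : Prop :=
  ∃ (f : MvPolynomial (Fin (N + 1)) ℂ) (d : ℕ), f.IsHomogeneous d ∧ 0 < d ∧ D.I = Ideal.span {f} ∧
    (∀ g, ∃ ψ : ℂ, ∀ x, eval (D.ρ g x) f = ψ * eval x f) ∧ N = n + 1 ∧ κ = d - (N + 1) ∧
    ¬ ((N + 1).Prime ∧ N + 1 ∣ d)

/-- The linear span of the orbit of `y` under `H`. -/
def orbitSpan (D : Cover G N) (H : Subgroup G) (y : Fin (N + 1) → ℂ) :
    Submodule ℂ (Fin (N + 1) → ℂ) :=
  Submodule.span ℂ (Set.range fun h : H => D.ρ h y)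

/-- The zeros of `I` in `W` lie on finitely many lines through `0`. -/
def FinitelyMany (D : Cover G N) (W : Submodule ℂ (Fin (N + 1) → ℂ)) : Prop :=
  ∃ S : Finset (Fin (N + 1) → ℂ), ∀ v ∈ W, v ≠ 0 → (∀ p ∈ D.I, eval v p = 0) →
    ∃ u ∈ S, ∃ a : ℂ, v = a • u

/-- Every subgroup `H` has orbits of at most `1 + e r` points if they span a projective space of
dimension `r ≥ 2`, or the span of the orbit meets `Y` in finitely many points, or `H` acts on the
span by commuting matrices. -/
def OrbitCondition (D : Cover G N) (e : ℕ) : Prop :=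
  ∀ (H : Subgroup G) (y : Fin (N + 1) → ℂ), y ≠ 0 → (∀ p ∈ D.I, eval y p = 0) →
    3 ≤ finrank ℂ (orbitSpan D H y) →
    (scalars D).relIndex H ≤ 1 + e * (finrank ℂ (orbitSpan D H y) - 1) ∨
      FinitelyMany D (orbitSpan D H y) ∨
      ∀ h ∈ H, ∀ h' ∈ H, ∀ v ∈ orbitSpan D H y, D.ρ h (D.ρ h' v) = D.ρ h' (D.ρ h v)

/-- `(e, χ)` defines a line bundle on `X`: scalars `ν` in `G` act on forms of degree `e` by `χ`. -/
def Compatible (D : Cover G N) (e : ℕ) (χ : G →* ℂˣ) : Prop :=
  ∀ (g : G) (ν : ℂ), (∀ x, D.ρ g x = ν • x) → (χ g : ℂ) = ν ^ e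

/-- The forms of degree `e` on which `G` acts by the character `χ`: the sections of the line bundle
on `X = Y/G` given by `e` and `χ`. -/
def Section (D : Cover G N) (e : ℕ) (χ : G →* ℂˣ) (F : MvPolynomial (Fin (N + 1)) ℂ) : Prop :=
  F.IsHomogeneous e ∧ ∀ (g : G) (x : Fin (N + 1) → ℂ), eval (D.ρ g x) F = χ g * eval x F

/-- `K_X + m A` is globally generated for `m ≥ n + 1` on the quotient `X = Y/G` of an
`n`-dimensional complete intersection or arithmetically Cohen-Macaulay `Y` by a finite group if `Y` is
a hypersurface whose degree is not divisible by `n + 2` or `n + 2` is not a prime, or if `G` modulo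
scalars has at most `2 e + 1` elements, or under the orbit condition. -/
theorem result [Finite G] (D : Cover G N) (n : ℕ) (κ : ℤ)
    (hY : CompleteIntersection D.I n κ ∨ CohenMacaulay D.I n κ)
    (k m e : ℕ) (hk : 1 ≤ k) (hm : n + 1 ≤ m) (he : (e : ℤ) = κ + m * k)
    (hG : Hypersurface D n κ ∨ (scalars D).index ≤ 2 * e + 1 ∨ OrbitCondition D e)
    (χ : G →* ℂˣ) (hχ : Compatible D e χ) :
    ∀ y : Fin (N + 1) → ℂ, y ≠ 0 → (∀ p ∈ D.I, eval y p = 0) →
      ∃ F, Section D e χ F ∧ eval y F ≠ 0 := by
  intro y hy0 hy
  have hmk : (n : ℤ) + 1 ≤ m * k := by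
    have h1 : n + 1 ≤ m * k := hm.trans (Nat.le_mul_of_pos_right m hk)
    exact_mod_cast h1
  obtain ⟨ρ₀, hρ, hde⟩ := Pool.Agent.W5h63.FJ.exists_topBound D.homogeneous (n := n) (κ := κ)
    (e := e) (by linarith) hy hY
  have hsc : scalars D = Pool.Agent.W5h63.FJ.scal D.ρ :=
    Subgroup.closure_eq (Pool.Agent.W5h63.FJ.scal D.ρ)
  have hG' : (scalars D).index ≤ 2 * e + 1 ∨ OrbitCondition D e := by
    rcases hG with ⟨f, d, hf, hd, hI, hsemi, hN, hκ, hn⟩ | h1
    · left
      have h1 := Pool.Agent.W5h63.FJ.index_dvd (ρ := D.ρ) hf hd hsemi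
        (fun v hv hvf g μ h => D.free v hv (fun p hp => by
          rw [hI] at hp
          obtain ⟨q, rfl⟩ := Ideal.mem_span_singleton.1 hp
          rw [map_mul, hvf, zero_mul]) g μ h) hn
      have h2 := Nat.le_of_dvd hd h1
      rw [hsc]
      have h3 : (d : ℤ) ≤ e + 1 := by
        have h4 : (N : ℤ) = n + 1 := by exact_mod_cast hN
        rw [he, hκ]
        linarith
      omega
    · exact h1
  obtain ⟨F, hF, hF1, hF2⟩ := Pool.Agent.W5h63.FJ.main (ρ := D.ρ) D.homogeneous hρ D.stable
    (fun v hv hvf g μ h => D.free v hv hvf g μ h) e hde hy0 hy (by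
      intro H hH
      rcases hG' with h1 | h1
      · left
        have h2 : (scalars D).relIndex H ≤ (scalars D).index := by
          refine Nat.le_of_dvd (Nat.pos_of_ne_zero Subgroup.index_ne_zero_of_finite) ?_
          rw [hsc]
          exact Subgroup.relIndex_dvd_index_of_normal _ _
        have h3 : 2 ≤ finrank ℂ (Submodule.span ℂ (Set.range fun h : H => D.ρ h y)) - 1 := by
          omega
        have h4 := Nat.mul_le_mul_left e h3
        rw [hsc] at h1 h2
        omega
      · rw [← hsc]
        exact h1 H y hy0 hy hH) χ hχ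
  exact ⟨F, ⟨hF, hF1⟩, hF2⟩

end Pool.Agent.Results.MP_9ff3e7_ag.FiniteQuotients
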