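import Pool.Agent.W5h70.Fuj.Alt5

/-!
# Fujita's very ampleness conjecture for étale quotients by diagonal groups

`Y ⊂ P^N` is the set of common zeros of `c` forms of degrees `d_1, …, d_c ≥ 2`, a finite group `G`
of any order acts by diagonal matrices on `P^N`, each form is semi-invariant (every complete
intersection stable under `G` is cut out by such forms), and `G` acts freely on `Y`. Let
`n = N - c`, let `κ = ∑ d_j - N - 1`, so that `ω_Y = O(κ)`, let `X = Y/G` and let `A` be a line
bundle on `X` whose pullback to `Y` is `O(k)`, `k ≥ 1`. The sections of `K_X + mA` are the forms of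
degree `e = κ + mk` on the cone over `Y` on which `G` acts by a given character `χ`. We prove that
`K_X + mA` is very ample for all `m ≥ n + 2`, for `c ≤ 3` without further conditions, and for
`c ≥ 4` under conditions on the coordinate sections of `Y`, which hold for example if all degrees
are equal.

The proof. Let `z = t y` be two points of `Y` (or `t = 1 + ε w` a tangent vector) which are not
separated. As in `W5h40.Fuj` one reduces to the case that the coordinates of `y` which are not zero
have different characters, and then all monomials of degree `e` and character `χ` in these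
coordinates take the same value at `t`. Let `P_S` be a smallest coordinate subspace, contained in
the one spanned by `y`, in which `Y` has infinitely many points. Then `C = Y ∩ P_S` is a curve.
* If there is no such `P_S`, the separation of `y` and `z` by forms of large degree descends to
  degree `e` by division by a form without zeros on the finite set (`core_fin`).
* If `C` is the intersection of `|S| - 2` hypersurfaces (`curve`), duality and the symmetry of the
  Hilbert functions (Riemann-Roch on the quotient curve) show that all characters occur in all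
  degrees `≥ (e - 1)/2`, so that `t` is the action of an element of `G`.
* If `C` has a component in a curve which is the intersection of `|S| - 2` semi-invariant
  hypersurfaces, divisors of `|S| - 2` of the `f j`, `j ≠ k`, then all characters occur in the
  degree `e - d_k` (`resid`, by duality and a form of Bézout's theorem on the component, `G` need
  not act freely on the rest of the curve), so that `f k` is semi-invariant for `t`. If this holds
  for all `k`, then `t` acts on `Y`, and one concludes with a point of minimal support.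
* If `|S| ≤ 4` one of the last two cases occurs by factorisation of the equations (`plane`,
  `four`).
-/

set_option autoImplicit false

namespace Pool.Agent.Results.MP_9ff3e7_ag.VeryAmpleDiagonal

open MvPolynomial

/-- Forms `f j` of degrees `d j` in `ℂ[x_0, …, x_N]`, and an action of `G` on `ℂ^(N+1)` by diagonal
matrices, the `i`-th coordinate being multiplied by the character `α i`. The form `f j` is multiplied
by the character `ψ j`, and no element `g ≠ 1` fixes a line in the set of common zeros. -/
structure DiagonalCover (G : Type) [Group G] (N c : ℕ) where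
  f : Fin c → MvPolynomial (Fin (N + 1)) ℂ
  d : Fin c → ℕ
  homogeneous : ∀ j, (f j).IsHomogeneous (d j)
  α : Fin (N + 1) → G →* ℂˣ
  ψ : Fin c → G →* ℂˣ
  semi : ∀ (j : Fin c) (g : G) (x : Fin (N + 1) → ℂ),
    eval (fun i => (α i g : ℂ) * x i) (f j) = ψ j g * eval x (f j)
  free : ∀ v : Fin (N + 1) → ℂ, v ≠ 0 → (∀ j, eval v (f j) = 0) → ∀ (g : G) (μ : ℂ),
    (∀ i, (α i g : ℂ) * v i = μ * v i) → g = 1

/-- The forms of degree `e` on which `G` acts by the character `χ`: the sections of the line bundle
on `X = Y/G` given by `e` and `χ`. -/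
def Section {G : Type} [Group G] {N c : ℕ} (D : DiagonalCover G N c) (e : ℕ) (χ : G →* ℂˣ)
    (F : MvPolynomial (Fin (N + 1)) ℂ) : Prop :=
  F.IsHomogeneous e ∧
    ∀ (g : G) (x : Fin (N + 1) → ℂ), eval (fun i => (D.α i g : ℂ) * x i) F = χ g * eval x F

/-- `Y` has only finitely many points in the coordinate subspace `P_S`, the set of the points whose
coordinates outside `S` vanish. -/
def FiniteOn {G : Type} [Group G] {N c : ℕ} (D : DiagonalCover G N c)
    (S : Finset (Fin (N + 1))) : Prop :=
  ∃ Z : Finset (Fin (N + 1) → ℂ), ∀ v : Fin (N + 1) → ℂ,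
    ((∀ j, eval v (D.f j) = 0) ∧ ∀ i ∉ S, v i = 0) → ∃ z ∈ Z, ∃ b : ℂ, v = b • z

/-- The equations which do not vanish identically on the coordinate subspace `P_S`. -/
def Live {G : Type} [Group G] {N c : ℕ} (D : DiagonalCover G N c)
    (S : Finset (Fin (N + 1))) : Set (Fin c) :=
  {j | ∃ v : Fin (N + 1) → ℂ, (∀ i ∉ S, v i = 0) ∧ eval v (D.f j) ≠ 0}

/-- The equations `f j`, `j ∈ A`, define a curve (or less) in the coordinate subspace `P_S`: they
have only finitely many common zeros in a suitable hyperplane of `P_S`. -/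
def CurveOn {G : Type} [Group G] {N c : ℕ} (D : DiagonalCover G N c)
    (S : Finset (Fin (N + 1))) (A : Finset (Fin c)) : Prop :=
  ∃ (a : Fin (N + 1) → ℂ) (Z : Finset (Fin (N + 1) → ℂ)), ∀ v : Fin (N + 1) → ℂ,
    ((∀ j ∈ A, eval v (D.f j) = 0) ∧ (∀ i ∉ S, v i = 0) ∧ ∑ i, a i * v i = 0) →
      ∃ z ∈ Z, ∃ b : ℂ, v = b • z

/-- `K_X + m A` is very ample on the quotient `X = Y/G` of a complete intersection `Y` of
dimension `n` and codimension `c` by a diagonal group of any order acting freely on `Y`, if
`m ≥ n + 2` and (a condition only for `c ≥ 4`) for all coordinate subspaces `P_S` of dimension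
between `4` and `c` in which `Y` has infinitely many points, but finitely many in each coordinate
hyperplane of `P_S`, either exactly `dim P_S - 1` of the equations do not vanish on `P_S`, or for
every such equation some `dim P_S - 1` of the others define a curve in `P_S`, or the degrees of
these equations differ by at most `mk - n - 2`. -/
theorem result {G : Type} [Group G] [Finite G] {N c : ℕ} (D : DiagonalCover G N c) (n : ℕ)
    (hN : N = n + c) (hd : ∀ j, 2 ≤ D.d j) (κ : ℤ) (hκ : κ = ∑ j, (D.d j : ℤ) - (N + 1))
    (k m e : ℕ) (hk : 1 ≤ k) (hm : n + 2 ≤ m) (he : (e : ℤ) = κ + m * k)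
    (hS : ∀ S : Finset (Fin (N + 1)), 5 ≤ S.card → S.card ≤ c + 1 → ¬ FiniteOn D S →
      (∀ i ∈ S, FiniteOn D (S.erase i)) →
      (Live D S).ncard + 2 = S.card ∨
        (∀ l ∈ Live D S, ∃ A : Finset (Fin c), l ∉ A ∧ A.card + 2 = S.card ∧ CurveOn D S A) ∨
        ∀ i ∈ Live D S, ∀ j ∈ Live D S, D.d j + (n + 2) ≤ D.d i + m * k)
    (χ : G →* ℂˣ) :
    -- no base points
    (∀ y : Fin (N + 1) → ℂ, y ≠ 0 → (∀ j, eval y (D.f j) = 0) →
      ∃ F, Section D e χ F ∧ eval y F ≠ 0) ∧
    -- points are separated
    (∀ y z : Fin (N + 1) → ℂ, y ≠ 0 → z ≠ 0 → (∀ j, eval y (D.f j) = 0) →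
      (∀ j, eval z (D.f j) = 0) → (¬ ∃ (g : G) (b : ℂ), ∀ i, z i = b * (D.α i g * y i)) →
      ∃ F, Section D e χ F ∧ eval y F = 0 ∧ eval z F ≠ 0) ∧
    -- tangent vectors are separated
    (∀ y u : Fin (N + 1) → ℂ, y ≠ 0 → (∀ j, eval y (D.f j) = 0) →
      (∀ j, ∑ i, eval y (pderiv i (D.f j)) * u i = 0) → (¬ ∃ b : ℂ, ∀ i, u i = b * y i) →
      ∃ F, Section D e χ F ∧ eval y F = 0 ∧ ∑ i, eval y (pderiv i F) * u i ≠ 0) := by
  classical
  have _ := Fintype.ofFinite G
  let D' : Pool.Agent.W5h40.Fuj.Dat G (N + 1) c :=
    { α := D.α, f := D.f, d := D.d, ψ := D.ψ, typ := fun j => ⟨D.homogeneous j, D.semi j⟩,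
      two := hd, free := D.free }
  have hmk : (n : ℤ) + 2 ≤ m * k := by
    have h1 : n + 2 ≤ m * k := hm.trans (Nat.le_mul_of_pos_right m hk)
    exact_mod_cast h1
  have hρ : (D'.ρ : ℤ) = e + n + 1 - m * k := by
    have h1 : (D'.ρ : ℤ) = ∑ j, (D.d j : ℤ) - c := by
      show ((∑ j, (D.d j - 1) : ℕ) : ℤ) = _
      rw [Nat.cast_sum]
      have h2 : ∀ j, ((D.d j - 1 : ℕ) : ℤ) = (D.d j : ℤ) - 1 := fun j => by
        have := hd j
        omega
      simp only [h2]
      rw [Finset.sum_sub_distrib]
      simp
    have hN' : (N : ℤ) = n + c := by exact_mod_cast hN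
    rw [h1, he, hκ, hN']
    ring
  have h1 : D'.ρ + 1 ≤ e := by
    have : (D'.ρ : ℤ) + 1 ≤ e := by rw [hρ]; linarith
    exact_mod_cast this
  have hlive : ∀ S, (Live D S) = (Pool.Agent.W5h70.Fuj.live D' S : Set (Fin c)) := by
    intro S
    ext j
    rw [Finset.mem_coe, Pool.Agent.W5h70.Fuj.mem_live]
    rfl
  have halt : ∀ y, Pool.Agent.W5h70.Fuj.Alt D' e y := by
    intro y
    refine Pool.Agent.W5h70.Fuj.alt5 D' h1 (fun S h4 hc hinf hfin => ?_) y
    rcases hS S h4 hc hinf hfin with h2 | h2 | h2
    · left
      rw [hlive, Set.ncard_coe_finset] at h2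
      exact h2
    · right
      left
      intro l hl
      exact h2 l (by rw [hlive]; exact hl)
    · right
      right
      intro i hi j hj
      have h3 := h2 i (by rw [hlive]; exact hi) j (by rw [hlive]; exact hj)
      have h4 : (D.d j : ℤ) + (n + 2) ≤ D.d i + m * k := by exact_mod_cast h3
      have h5 : (D'.ρ : ℤ) + D.d j + 1 ≤ e + D.d i := by rw [hρ]; linarith
      exact_mod_cast h5
  refine ⟨?_, ?_, ?_⟩
  · intro y hy0 hy
    obtain ⟨μ, h3, h4, h5⟩ := D'.exists_mono hy0 hy χ (t := e) (by omega)
    have h6 := Pool.Agent.TH144.MB.typ_monomial h4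
    rw [h3] at h6
    exact ⟨_, h6, by rw [Pool.Agent.TH144.MB.eval_mono]; exact h5⟩
  · intro y z hy0 hz0 hy hz hyz
    exact Pool.Agent.W5h70.Fuj.points2 D' χ h1 (halt y) hy0 hz0 hy hz hyz
  · intro y u hy0 hy hu hne
    exact Pool.Agent.W5h70.Fuj.tangents2 D' χ h1 (halt y) hy0 hy hu hne

end Pool.Agent.Results.MP_9ff3e7_ag.VeryAmpleDiagonal
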